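import Pool.Agent.TH680.CT.Time

/-!
# Closure of `NTIME(Pol t)` under complement relative to random oracles: all `t` at once

The strings `x` are put into the oracle `A` independently, with a probability `q |x|` that depends on
the length only, where `q` is an arbitrary function (`rand q` is the distribution of `A`). Let
`rare q n = 2 ^ n * min (q n) (1 - q n)`, the expected number of the strings of length `n` for which
`A` has the less probable value.

A time bound (`TimeBound`) is a function `t` with `n ≤ t n` which is computable in time `Pol t`
(`Constr`; this is the condition `t(|w|) ∈ DTIME(Pol t)` of the problem file) and which does not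
jump over large intervals and is at most doubly exponential in the following weak sense (`Gentle`):
for all large `k` there is `m ≥ 4 k` with `2 ^ k ≤ t m ≤ 2 ^ (2 ^ (k / 200))`. Examples are the
identity, all the usual functions between `n` and `2 ^ (2 ^ (n / 1000))`, and also functions which
oscillate between, say, `n` and `2 ^ n`.

(1) If the series `∑ rare q` diverges then, for every oracle `Q` and almost all `A`, for all
time bounds `t` simultaneously, `NTIME(Pol t)` relative to `Q ⊕ A` is not closed under complement.

(2) If the series converges then, for every oracle `Q` and almost all `A`, for all functions `t`,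
the class `NTIME(Pol t)` is the same relative to `Q ⊕ A` and relative to `Q ⊕ common q`, where
`common q` is the set of the strings with `q > 1 / 2`.

(3) So there is a law: for every `Q` and almost all `A`, for all time bounds `t` simultaneously,
`NTIME(Pol t)` is closed under complement relative to `Q ⊕ A` if and only if the series converges
and `NTIME(Pol t)` is closed under complement relative to `Q ⊕ common q`.

(4) If the series converges then there is an oracle `Q` such that, for almost all `A`,
`NTIME(Pol t)` is closed under complement relative to `Q ⊕ A` for all `t` which are computable in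
time `Pol t`.

(5) The functions `n` and `2 ^ n` are time bounds.

So the closure can be forced by a suitable oracle `Q` if and only if the series converges, and the
answer does not depend on `t`: the closures for the different `t`, although they are only known to
be inherited upwards, disappear at the same density.

The proof of (1) starts from the language `L` of the hand-in `MP_64fb07_lc.DensityThreshold` (the
case `t n = 2 ^ n`), which is in nondeterministic time `2 ^ O(n)` although its complement is not in
nondeterministic time `2 ^ (2 ^ (n / 100))`. For a time bound `t`, consider the pairs of an `x` in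
`L` with a padding such that the length `m` of the pair satisfies `2 ^ |x| ≤ t m`.
-/

set_option autoImplicit false

namespace Pool.Agent.Results.MP_fa4772_lc.DensityThreshold

open MeasureTheory Pool.Agent.NPC
open Pool.Agent.H620R2.Gauge (Oracle IsFP)
open Pool.Agent.W900.IE (indep)

/-- The distribution of the random oracle: the strings `x` are in the oracle with probability
`q |x|`, independently. -/
noncomputable def rand (q : ℕ → unitInterval) : Measure Oracle := indep (fun x => q x.length)

/-- The expected number of the strings of length `n` for which the random oracle has the less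
probable value. -/
noncomputable def rare (q : ℕ → unitInterval) (n : ℕ) : ℝ := 2 ^ n * min (q n : ℝ) (1 - q n)

/-- The oracle of the more probable values. -/
noncomputable def common (q : ℕ → unitInterval) : Oracle := fun x =>
  decide ((1 / 2 : ℝ) < q x.length)

/-- The disjoint union of the oracles `Q` and `A`. -/
def join (Q A : Oracle) : Oracle
  | [] => false
  | false :: z => Q z
  | true :: z => A z

/-- `NTIME(Pol t)` relative to the oracle `O`, in certificate form: some function `V`, computable in
polynomial time relative to `O`, accepts a pair of a certificate `c` and `x` only if `x` is in `L`,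
and it accepts such a pair with a certificate of length at most `p (t |x|)` for every `x` in `L`. -/
def NT (O : Oracle) (t : ℕ → ℕ) (L : Set (List Bool)) : Prop :=
  ∃ (V : List Bool → List Bool) (p : Polynomial ℕ), IsFP O V ∧
    (∀ x c : List Bool, V (pairBits c x) = [true] → x ∈ L) ∧
    ∀ x ∈ L, ∃ c : List Bool, c.length ≤ p.eval (t x.length) ∧ V (pairBits c x) = [true]

/-- `NTIME(Pol t)` is closed under complement, relative to `O`. -/
def Closed (O : Oracle) (t : ℕ → ℕ) : Prop := ∀ L, NT O t L → NT O t Lᶜ

/-- `t` is computable in time `Pol t`: some polynomial-time function `F` (a simulation of `m` steps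
of a computation) has on `(1 ^ n, 1 ^ m)` the empty value or the value `true :: t n` (with `t n` in
binary), and the latter if `m` is at least `r (t n)`, for some polynomial `r`. -/
def Constr (t : ℕ → ℕ) : Prop :=
  ∃ (F : List Bool → List Bool) (r : Polynomial ℕ), PolyTime F ∧
    ∀ n m : ℕ, (F (pairBits (List.replicate n true) (List.replicate m true)) = [] ∨
      F (pairBits (List.replicate n true) (List.replicate m true)) = true :: (t n).bits) ∧
      (r.eval (t n) ≤ m →
        F (pairBits (List.replicate n true) (List.replicate m true)) ≠ [])

/-- For all large `k` there is an argument `m ≥ 4 k` with a value between `2 ^ k` and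
`2 ^ (2 ^ (k / 200))`. -/
def Gentle (t : ℕ → ℕ) : Prop :=
  ∃ k₀ : ℕ, ∀ k ≥ k₀, ∃ m ≥ 4 * k, 2 ^ k ≤ t m ∧ t m ≤ 2 ^ 2 ^ (k / 200)

/-- The time bounds considered. -/
def TimeBound (t : ℕ → ℕ) : Prop := (∀ n, n ≤ t n) ∧ Constr t ∧ Gentle t

theorem join_eq : TH680.OD.join = join := by
  funext Q A x
  rcases x with _ | ⟨b, z⟩
  · rfl
  · cases b <;> rfl

theorem rare_eq (q : ℕ → unitInterval) : W900.IE.dev (TH680.DT.pq q) = rare q := by
  funext n
  unfold W900.IE.dev TH680.DT.pq rare
  have h : ∀ v : Fin n → Bool, min (q (List.ofFn v).length : ℝ) (1 - q (List.ofFn v).length) =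
      min (q n : ℝ) (1 - q n) := fun v => by rw [List.length_ofFn]
  rw [Finset.sum_congr rfl fun v _ => h v, Finset.sum_const, nsmul_eq_mul, Finset.card_univ]
  simp

theorem poly_join {E : List Bool → Bool} (hE : Poly E) :
    Poly (fun x : List Bool => decide (x.head? = some true) && E x.tail) :=
  Poly.and (Poly.decide_eq (Poly.head? Poly.id) (NPC.Poly.const _)) (hE.comp (Poly.tail Poly.id))

theorem join_xor (Q : Oracle) {A D : Oracle} {E : List Bool → Bool}
    (h : ∀ x, D x = (A x ^^ E x)) (x : List Bool) :
    join Q D x = (join Q A x ^^ (decide (x.head? = some true) && E x.tail)) := by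
  rcases x with _ | ⟨b, z⟩
  · rfl
  · cases b with
    | false => simp [join]
    | true =>
      show D z = _
      rw [h]
      simp [join]

theorem hx (A D : Oracle) (x : List Bool) : D x = (A x ^^ (A x ^^ D x)) := by
  cases A x <;> cases D x <;> rfl

/-- **Closure of `NTIME(Pol t)` under complement relative to random oracles, for all `t`.** -/
theorem result (q : ℕ → unitInterval) :
    (¬ Summable (rare q) → ∀ Q : Oracle, ∀ᵐ A ∂(rand q),
      ∀ t, TimeBound t → ∃ L, NT (join Q A) t L ∧ ¬ NT (join Q A) t Lᶜ) ∧
    (Summable (rare q) → ∀ Q : Oracle, ∀ᵐ A ∂(rand q),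
      ∀ t L, NT (join Q A) t L ↔ NT (join Q (common q)) t L) ∧
    (∀ Q : Oracle, ∀ᵐ A ∂(rand q), ∀ t, TimeBound t →
      (Closed (join Q A) t ↔ (Summable (rare q) ∧ Closed (join Q (common q)) t))) ∧
    (Summable (rare q) → ∃ Q : Oracle, ∀ᵐ A ∂(rand q),
      ∀ t, Constr t → Closed (join Q A) t) ∧
    TimeBound (fun n => n) ∧ TimeBound (fun n => 2 ^ n) := by
  have h1 : ¬ Summable (rare q) → ∀ Q : Oracle, ∀ᵐ A ∂(rand q),
      ∀ t, TimeBound t → ∃ L, NT (join Q A) t L ∧ ¬ NT (join Q A) t Lᶜ := by
    intro h Q
    have h0 := TH680.EL.ae_ne (q := q) h Q
    rw [join_eq] at h0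
    filter_upwards [h0] with A hA t ht
    obtain ⟨L, h2, _, h3⟩ := hA
    exact ⟨_, TH680.CT.nt_lt h2 ht.2.1, TH680.CT.not_nt_lt h3 ht.1 ht.2.1 ht.2.2⟩
  have h2 : Summable (rare q) → ∀ Q : Oracle, ∀ᵐ A ∂(rand q),
      ∀ t L, NT (join Q A) t L ↔ NT (join Q (common q)) t L := by
    intro h Q
    rw [← rare_eq] at h
    filter_upwards [TH680.DT.ae_same h] with A hA t L
    unfold NT
    simp only [TH680.DT.same_isFP (poly_join hA) (join_xor Q (hx A (common q)))]
  refine ⟨h1, h2, fun Q => ?_, fun h => ?_,
    ⟨fun n => le_rfl, TH680.CT.constr_of_poly (Poly.length Poly.id), TH680.CT.gentle_id⟩,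
    ⟨fun n => Nat.lt_two_pow_self.le, TH680.CT.constr_of_poly
      (Pool.Agent.H622R2.Exp.A4.poly_two_pow (UPoly.length Poly.id)), TH680.CT.gentle_exp⟩⟩
  · by_cases h : Summable (rare q)
    · filter_upwards [h2 h Q] with A hA t _
      unfold Closed
      simp only [hA, h, true_and]
    · filter_upwards [h1 h Q] with A hA t ht
      obtain ⟨L, h3, h4⟩ := hA t ht
      exact ⟨fun h5 => absurd (h5 L h3) h4, fun h5 => absurd h5.1 h⟩
  · have hC : ∀ x y : List Bool, x.length = y.length → TH680.ND.cm q x = TH680.ND.cm q y :=
      fun x y hxy => by
        unfold TH680.ND.cm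
        rw [hxy]
    obtain ⟨Q, _, hP⟩ := TH680.ND.exists_above2 hC
    refine ⟨Q, ?_⟩
    have hs := h
    rw [← rare_eq] at hs
    filter_upwards [h2 h Q] with A hA t ht L hL
    rw [hA] at hL ⊢
    refine TH680.CT.nt_compl (fun L' hL' => ?_) ht hL
    rw [← join_eq] at hL' ⊢
    exact hP L' hL'

end Pool.Agent.Results.MP_fa4772_lc.DensityThreshold
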