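import Pool.Agent.TH93.CC.Law

/-!
# Complements of languages in `NTIME(Pol t)` relative to a random oracle: the guessed bits

All classes are relative to an oracle `A`, and polynomial time in `t (n)` is described with inputs
padded by the string of `t (n)` ones (`n` is the length of the input `x`).

* `InGuess t g A L`: the language `L` is in `NTIME(Pol t)`, with a verifier that gets strings of at
  most `g (n)` guessed bits.
* `InNT t' A L`: the language `L` is in `NTIME(Pol t')`.
* `InDT t' A L`: the language `L` is in `DTIME(Pol t')`.
* `NiceT t g`: the string of `g (n)` ones can be computed from `x` and the string of `t (n)` ones in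
  polynomial time.

Theorem. Let `S` be any countable set of functions (for example all computable functions). Then for
almost every oracle `A`, for all `t` and `t'` in `S` with `n ≤ t' (n)` and `NiceT t' t`:

1. For all `g` with `NiceT t g`, the following are equivalent: the complements of all the languages
   in `NTIME(Pol t)` with `g (n)` guessed bits are in `NTIME(Pol t')`; all these languages are in
   `DTIME(Pol t')`; `g (n) = O (log (t' (n)))`.
2. The following are equivalent: `coNTIME(Pol t)` is contained in `NTIME(Pol t')`; `NTIME(Pol t)` is
   contained in `DTIME(Pol t')`; `p (t (n)) = O (log (t' (n)))` for all polynomials `p`.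

So relative to a random oracle, for any two time bounds, complements can be accepted
nondeterministically only in the trivial way: by trying all strings of guessed bits. In particular
(`t' = t`) the complements that stay in `NTIME(Pol t)` are, as far as the number of the guessed bits
says, exactly those of the languages with `O (log (t (n)))` guessed bits.
-/

set_option autoImplicit false

namespace Pool.Agent.Results.MP_fa4772_lc.GuessedBitsClosure

open Pool.Agent.TH93.CC Pool.Agent.TH93.GL Pool.Agent.H620R2.Gauge MeasureTheory

/-- **Complements of languages in `NTIME(Pol t)` and guessed bits, relative to a random oracle.** -/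
theorem result {S : Set (ℕ → ℕ)} (hS : S.Countable) :
    ∀ᵐ A ∂ranO, ∀ t ∈ S, ∀ t' ∈ S, (∀ n, n ≤ t' n) → NiceT t' t →
      (∀ g, NiceT t g → List.TFAE [
        ∀ L, InGuess t g A L → InNT t' A Lᶜ,
        ∀ L, InGuess t g A L → InDT t' A L,
        ∃ c, ∀ n, g n ≤ c * (Nat.log 2 (t' n) + 1)]) ∧
      List.TFAE [
        ∀ L, InNT t A L → InNT t' A Lᶜ,
        ∀ L, InNT t A L → InDT t' A L,
        ∀ p : Polynomial ℕ, ∃ c, ∀ n, p.eval (t n) ≤ c * (Nat.log 2 (t' n) + 1)] :=
  law hS

end Pool.Agent.Results.MP_fa4772_lc.GuessedBitsClosure
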