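import Pool.Agent.TH755.CL.Lift

/-!
# Closure of `NTIME(Pol t)` under complement is invariant under linear rescaling of the length

`NT t` is `NTIME(Pol t)` in certificate form: `L` is in `NT t` if there are a function `V`,
computable in polynomial time, and a polynomial `p` such that `x` is in `L` if and only if
`V (x, c) = [true]` for some string `c`, and there is such a `c` of length at most `p (t |x|)`
for every `x` in `L`.

`NComp h t`: there are a function `V`, computable in polynomial time, and a polynomial `p` such
that `V ((1 ^ n, 1 ^ m), c) = [true]` holds only if `m = h n`, and it holds for `m = h n` and some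
string `c` of length at most `p (t n)`.

Let `T` be any function with `2 ^ n ≤ P (T n)` for some polynomial `P`; it need not be monotone
or computable. If `NTIME(Pol T)` is closed under complement, then `NTIME(Pol (T ∘ h))` is closed
under complement for every `h` with `n ≤ s * h n`, provided that `h` is computable in
nondeterministic time `Pol (T ∘ h)`. Here `h` can be smaller than the identity. In particular,
`NTIME(Pol T)` is closed under complement if and only if `NTIME(Pol T')` is, where
`T' n = T ⌈n / s⌉`.

Idea of the proof. It suffices to go from `T` to `T' n = T ⌈n / 2⌉`. Let `L` be in `NTIME(Pol T')`,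
and let `c` be the number of words of length `2 n` in `L`; it is bounded by `2 ^ (2 n)`, so by a
polynomial in `T n = T' (2 n)`. If `c` is known then a list of `c` members of length `2 n`, with
their certificates, certifies that a word of length `2 n` is not in `L`. The number `c` has `2 n`
bits (if `L` does not contain all words). The set of the strings `u` of length `n` whose value is
less than the upper half of `c` is in `NTIME(Pol T)`, so its complement is in `NTIME(Pol T)`, too;
hence there are certificates for the upper half of `c`. Given these, the set of the strings `v` of
length `n` whose value is less than the lower half of `c` is in `NTIME(Pol T)`, too, and so there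
are certificates for the lower half of `c`. The odd lengths are similar.
-/

set_option autoImplicit false

open Pool.Agent.H639R2.NTP Pool.Agent.TH755.CL

namespace Pool.Agent.Results.MP_fa4772_lc.LinearRescaling

theorem result (T : ℕ → ℕ) (hT : ∃ P : Polynomial ℕ, ∀ n, 2 ^ n ≤ P.eval (T n)) :
    (∀ (h : ℕ → ℕ) (s : ℕ), (∀ n, n ≤ s * h n) → NComp h (fun n => T (h n)) →
      (∀ L ∈ NT T, Lᶜ ∈ NT T) →
        ∀ L ∈ NT (fun n => T (h n)), Lᶜ ∈ NT fun n => T (h n)) ∧
    ∀ s : ℕ, 1 ≤ s →
      ((∀ L ∈ NT T, Lᶜ ∈ NT T) ↔
        ∀ L ∈ NT (fun n => T ((n + (s - 1)) / s)), Lᶜ ∈ NT fun n => T ((n + (s - 1)) / s)) :=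
  ⟨fun _ _ hs hh hcl => main hT hs hh hcl, fun _ hs => rescale hT hs⟩

end Pool.Agent.Results.MP_fa4772_lc.LinearRescaling
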