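import Pool.Agent.TH684.CX.ThmN

/-!
# `NP = coNP`, nondeterministic exclusion of one vector of answers, and threshold gates

This is about the time bound `t = id` of the question, that is, `NP = coNP`. Polynomial time is
Mathlib's `Turing.TM2ComputableInPolyTime`, for functions on bit strings.

Consider `m` questions about membership in an `NP`-hard set `A`, for strings of length at most `n`,
where `m = n ^ b + b`. A nondeterministic polynomial-time algorithm gets the list of questions; it has
at least one output on every list, and every output is right. We show that `NP = coNP` as soon as the
outputs say anything at all about the answers:

* the output excludes a vector of a strongly explicit family as the vector of the answers: for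
  instance `c ≤ m` which is not the number of members of `A` in the list, or an index `i` such that the
  string number `i` is not the only member;
* for one string `x` the output is an integer vector `v`, and `x ∈ A` iff `P (v) > 0`, where `P` is a
  real polynomial of bounded degree (for instance a linear form plus a constant: one threshold gate).
  The coefficients of `P` are arbitrary real numbers which may depend on the length in any way.

For deterministic algorithms see `MP_8a52c3_lc.OneExcludedVector` and
`MP_8a52c3_lc.ArbitraryWeightGate`.

Proof. The certificate for `x ∉ S`, where `S` is in `NP`, contains a table of runs of the
nondeterministic algorithm, one for each of polynomially many lists of questions which depend on `x`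
only. If the table is valid then the deterministic search of `OneExcludedVector` works with it, and
computes short lists of candidates for single-valued `NP` functions, and so for the vector of answers
to parallel `NP` questions. Candidates for a constant number of consecutive levels of the hashed
search tree for a witness of `x ∈ S` (the method of the starting modules `Pool.Agent.W920.NL` and
`Pool.Agent.W901.FC`) show then that there is no witness. A gate excludes a row of a Hadamard matrix
by the polynomial-time form of Forster's theorem, `Pool.Agent.TH684.LT.exclF_spec`.
-/

set_option autoImplicit false

namespace Pool.Agent.Results.MP_fa4772_lc.NondetThresholdGate

open Pool.Agent.NPC Pool.Agent.TH684.EX Pool.Agent.TH684.CX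

/-- **Nondeterministic exclusion and threshold gates.** The following are equivalent: `NP = coNP`; for
some `NP`-hard set one vector of some strongly explicit family can be excluded nondeterministically as
the vector of answers; for some `NP`-hard set one can exclude one value of the number of members; for
some `NP`-hard set one can find an index `i` such that the string number `i` is not the only member;
the last two tasks can be solved for all sets in `NP`; some `NP`-hard set is decided by one polynomial
threshold gate of bounded degree with nondeterministically computed inputs; all sets in `NP` are
decided by such a gate of degree one. -/
theorem result : List.TFAE
    [∀ S : Set (List Bool), InNP S → InNP Sᶜ,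
      ∃ A L : Set (List Bool), NPHard A ∧ InP L ∧ NFeasible (Exclude L A),
      ∃ A : Set (List Bool), NPHard A ∧ NFeasible (ExcludeCount A),
      ∃ A : Set (List Bool), NPHard A ∧ NFeasible (NotOnly A),
      ∀ A : Set (List Bool), InNP A → NFeasible (ExcludeCount A) ∧ NFeasible (NotOnly A),
      ∃ (A : Set (List Bool)) (k : ℕ), NPHard A ∧ NPolynomialGate k A,
      ∀ A : Set (List Bool), InNP A → NPolynomialGate 1 A] :=
  conp_tfae

end Pool.Agent.Results.MP_fa4772_lc.NondetThresholdGate
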